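import Pool.Agent.Helper61.NW.Goals

/-!
# NW-ZED: Lemma Z (helper35's form of helper74's proof)
-/

set_option autoImplicit false

open scoped Pointwise

namespace Pool.Agent.Helper12.NW

open Pool.Agent.Helper52.Wq2 Pool.Agent.Helper61.NW

universe u

section graph

variable {V : Type u} {G : SimpleGraph V}

theorem meet {U t A : Set V} (ht : Conn G t) (htU : t ⊆ U)
    (hcl : ∀ a ∈ A, ∀ b ∈ U, G.Adj a b → b ∈ A) (hm : (A ∩ t).Nonempty) : t ⊆ A := by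
  intro x hx
  exact (ht.2 (A ∩ t) Set.inter_subset_right hm
    (fun y hy z hz hyz => ⟨hcl y hy.1 z (htU hz) hyz, hz⟩) hx).1

theorem conn_star {ι : Type*} {C : Set V} {s : ι → Set V} (hC : Conn G C)
    (hs : ∀ i, Conn G (s i)) (hm : ∀ i, (C ∩ s i).Nonempty) : Conn G (C ∪ ⋃ i, s i) := by
  obtain ⟨c, hc⟩ := hC.1
  refine ⟨⟨c, Or.inl hc⟩, ?_⟩
  intro A hA hne hcl
  have hCU : C ⊆ C ∪ ⋃ i, s i := Set.subset_union_left
  have hsU : ∀ i, s i ⊆ C ∪ ⋃ i, s i := fun i =>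
    (Set.subset_iUnion s i).trans Set.subset_union_right
  have hCA : C ⊆ A := by
    obtain ⟨x, hx⟩ := hne
    rcases hA hx with h | h
    · exact meet hC hCU hcl ⟨x, hx, h⟩
    · obtain ⟨i, hi⟩ := Set.mem_iUnion.1 h
      have h1 := meet (hs i) (hsU i) hcl ⟨x, hx, hi⟩
      obtain ⟨y, hy1, hy2⟩ := hm i
      exact meet hC hCU hcl ⟨y, h1 hy2, hy1⟩
  refine Set.union_subset hCA (Set.iUnion_subset fun i => ?_)
  obtain ⟨y, hy1, hy2⟩ := hm i
  exact meet (hs i) (hsU i) hcl ⟨y, hCA hy1, hy2⟩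

theorem conn_union {s t : Set V} (hs : Conn G s) (ht : Conn G t) (hm : (s ∩ t).Nonempty) :
    Conn G (s ∪ t) := by
  have h := conn_star (ι := Unit) (s := fun _ => t) hs (fun _ => ht) (fun _ => hm)
  rwa [Set.iUnion_const] at h

theorem conn_zline {s : ℤ → Set V} (hs : ∀ i, Conn G (s i))
    (hm : ∀ i, (s i ∩ s (i + 1)).Nonempty) : Conn G (⋃ i, s i) := by
  refine ⟨?_, ?_⟩
  · obtain ⟨x, hx⟩ := (hs 0).1
    exact ⟨x, Set.mem_iUnion.2 ⟨0, hx⟩⟩
  · intro A hA hne hcl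
    have hsU : ∀ i, s i ⊆ ⋃ i, s i := fun i => Set.subset_iUnion s i
    have up : ∀ i, s i ⊆ A → s (i + 1) ⊆ A := by
      intro i hi
      obtain ⟨y, h1, h2⟩ := hm i
      exact meet (hs _) (hsU _) hcl ⟨y, hi h1, h2⟩
    have dn : ∀ i, s (i + 1) ⊆ A → s i ⊆ A := by
      intro i hi
      obtain ⟨y, h1, h2⟩ := hm i
      exact meet (hs _) (hsU _) hcl ⟨y, hi h2, h1⟩
    obtain ⟨x, hx⟩ := hne
    obtain ⟨i0, hi0⟩ := Set.mem_iUnion.1 (hA hx)
    have h0 : s i0 ⊆ A := meet (hs _) (hsU _) hcl ⟨x, hx, hi0⟩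
    refine Set.iUnion_subset fun i => ?_
    have hup : ∀ n : ℕ, s (i0 + n) ⊆ A := by
      intro n
      induction n with
      | zero => simpa using h0
      | succ n ih =>
        have := up _ ih
        have e : i0 + ((n + 1 : ℕ) : ℤ) = i0 + n + 1 := by push_cast; ring
        rwa [e]
    have hdn : ∀ n : ℕ, s (i0 - n) ⊆ A := by
      intro n
      induction n with
      | zero => simpa using h0
      | succ n ih =>
        apply dn
        have e : i0 - ((n + 1 : ℕ) : ℤ) + 1 = i0 - n := by push_cast; ring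
        rwa [e]
    rcases le_total i0 i with h | h
    · have := hup (i - i0).toNat
      have e : i0 + ((i - i0).toNat : ℤ) = i := by omega
      rwa [e] at this
    · have := hdn (i0 - i).toNat
      have e : i0 - ((i0 - i).toNat : ℤ) = i := by omega
      rwa [e] at this

theorem comp_exists {L T : Set V} (hL : Conn G L) {a : V} (ha : a ∈ L) (haT : a ∉ T)
    (hLT : (L ∩ T).Nonempty) :
    ∃ A : Set V, A ⊆ L ∧ Conn G A ∧ a ∈ A ∧ (∀ y ∈ A, y ∉ T) ∧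
      ∃ u ∈ A, ∃ v ∈ L, v ∈ T ∧ G.Adj u v := by
  let R : V → V → Prop := fun p q => G.Adj p q ∧ q ∈ L ∧ q ∉ T
  let A : Set V := {y | Relation.ReflTransGen R a y}
  have haA : a ∈ A := Relation.ReflTransGen.refl
  have hAL : ∀ y ∈ A, y ∈ L ∧ y ∉ T := by
    intro y hy
    have hy' : Relation.ReflTransGen R a y := hy
    cases hy' with
    | refl => exact ⟨ha, haT⟩
    | tail _ h => exact h.2
  refine ⟨A, fun y hy => (hAL y hy).1, ?_, haA, fun y hy => (hAL y hy).2, ?_⟩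
  · refine conn_of_root (r := a) haA ?_
    intro x hx
    have hx' : Relation.ReflTransGen R a x := hx
    clear hx
    induction hx' with
    | refl => exact Relation.ReflTransGen.refl
    | tail hab hbc ih => exact ih.tail ⟨hbc.1, Relation.ReflTransGen.tail hab hbc⟩
  · by_contra hno
    have hsub : L ⊆ A := by
      refine hL.2 A (fun y hy => (hAL y hy).1) ⟨a, haA⟩ ?_
      intro p hp q hq hpq
      by_cases hqT : q ∈ T
      · exact absurd ⟨p, hp, q, hq, hqT, hpq⟩ hno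
      · exact Relation.ReflTransGen.tail hp ⟨hpq, hq, hqT⟩
    obtain ⟨v, hv1, hv2⟩ := hLT
    exact (hAL v (hsub hv1)).2 hv2

end graph

section group

variable {Γ : Type u} [Group Γ] {S : Set Γ}

/-- Left translate. -/
def lt (g : Γ) (s : Set Γ) : Set Γ := (fun y => g * y) '' s

theorem conn_lt (hS : IsGen S) (g : Γ) {s : Set Γ} (h : Conn (cay S) s) :
    Conn (cay S) (lt g s) := by
  refine h.image _ (fun a _ b _ hab => Or.inr ?_)
  rw [cay_adj hS] at hab ⊢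
  have e : (g * a)⁻¹ * (g * b) = a⁻¹ * b := by group
  rw [e]; exact hab

theorem exists_conn (hS : IsGen S) (g : Γ) :
    ∃ P : Set Γ, P.Finite ∧ Conn (cay S) P ∧ 1 ∈ P ∧ g ∈ P := by
  have hg : g ∈ Subgroup.closure S := by rw [hS.1]; exact Subgroup.mem_top _
  induction hg using Subgroup.closure_induction with
  | mem s hs =>
    refine ⟨{1} ∪ {s}, Set.toFinite _,
      Conn.union (conn_singleton _ _) (conn_singleton _ _) rfl rfl ?_, Or.inl rfl, Or.inr rfl⟩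
    simpa using cay_adj_mul hS 1 hs
  | one => exact ⟨{1}, Set.finite_singleton _, conn_singleton _ _, rfl, rfl⟩
  | mul a b _ _ ha hb =>
    obtain ⟨P, h1, h2, h3, h4⟩ := ha
    obtain ⟨Q, k1, k2, k3, k4⟩ := hb
    exact ⟨P ∪ lt a Q, h1.union (k1.image _),
      conn_union h2 (conn_lt hS a k2) ⟨a, h4, 1, k3, mul_one a⟩, Or.inl h3, Or.inr ⟨b, k4, rfl⟩⟩
  | inv a _ ha =>
    obtain ⟨P, h1, h2, h3, h4⟩ := ha
    exact ⟨lt a⁻¹ P, h1.image _, conn_lt hS _ h2, ⟨a, h4, inv_mul_cancel a⟩, ⟨1, h3, mul_one _⟩⟩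

theorem bdd {z w : Γ} (hind : ∀ i j : ℤ, w ^ i * z ^ j = 1 → i = 0 ∧ j = 0) {Φ : Set Γ}
    (hΦ : Φ.Finite) : ∃ N : ℕ, ∀ n l : ℤ, w ^ n * z ^ l ∈ Φ → n.natAbs ≤ N ∧ l.natAbs ≤ N := by
  have hinj : Function.Injective (fun q : ℤ × ℤ => w ^ q.1 * z ^ q.2) := by
    rintro ⟨a, b⟩ ⟨a', b'⟩ h
    have h' : w ^ a * z ^ b = w ^ a' * z ^ b' := h
    have h1 : w ^ (a - a') * z ^ (b - b') = 1 := by
      have e : w ^ (a - a') * z ^ (b - b') = w ^ (-a') * (w ^ a * z ^ b) * z ^ (-b') := by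
        rw [show a - a' = -a' + a by ring, show b - b' = b + -b' by ring, zpow_add, zpow_add]
        simp only [mul_assoc]
      rw [e, h']
      group
    obtain ⟨h2, h3⟩ := hind _ _ h1
    rw [Prod.mk.injEq]
    omega
  obtain ⟨N, hN⟩ := ((hΦ.preimage hinj.injOn).image
    (fun q : ℤ × ℤ => max q.1.natAbs q.2.natAbs)).bddAbove
  refine ⟨N, fun n l h => ?_⟩
  have := hN ⟨(n, l), h, rfl⟩
  exact ⟨(le_max_left _ _).trans this, (le_max_right _ _).trans this⟩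

theorem exists_shift {z w : Γ} (hind : ∀ i j : ℤ, w ^ i * z ^ j = 1 → i = 0 ∧ j = 0)
    {F : ℕ → Set Γ} (hF : ∀ n, (F n).Finite) :
    ∃ e : ℕ → ℤ, ∀ m n, m ≠ n → ∀ u ∈ F m, ∀ v ∈ F n, z ^ e m * u ≠ z ^ e n * v := by
  have hb : ∀ m n, ∃ b : ℕ, ∀ l : ℤ, (∃ u ∈ F m, ∃ v ∈ F n, z ^ l * u = v) → l.natAbs ≤ b := by
    intro m n
    obtain ⟨N, hN⟩ := bdd hind ((hF n).mul (hF m).inv)
    refine ⟨N, ?_⟩
    rintro l ⟨u, hu, v, hv, h⟩
    refine (hN 0 l ?_).2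
    rw [zpow_zero, one_mul]
    exact ⟨v, hv, u⁻¹, Set.inv_mem_inv.2 hu, by
      change v * u⁻¹ = z ^ l
      rw [← h, mul_inv_cancel_right]⟩
  choose b hb using hb
  let c : ℕ → ℕ := fun k => ∑ m ∈ Finset.range (k + 1), (b k m + 1)
  let e : ℕ → ℤ := fun n => ∑ k ∈ Finset.range (n + 1), (c k : ℤ)
  have hsucc : ∀ n, e (n + 1) = e n + c (n + 1) := fun n => Finset.sum_range_succ _ _
  have hmono : Monotone e := monotone_nat_of_le_succ fun n => by
    rw [hsucc]; have : (0 : ℤ) ≤ c (n + 1) := Int.natCast_nonneg _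
    omega
  have main : ∀ m n, m < n → ∀ u ∈ F m, ∀ v ∈ F n, z ^ e m * u ≠ z ^ e n * v := by
    intro m n hmn u hu v hv h
    obtain ⟨n', rfl⟩ : ∃ n', n = n' + 1 := ⟨n - 1, by omega⟩
    have h1 : z ^ (e (n' + 1) - e m) * v = u := by
      rw [sub_eq_neg_add, zpow_add, mul_assoc, ← h]
      group
    have h2 := hb (n' + 1) m (e (n' + 1) - e m) ⟨v, hv, u, hu, h1⟩
    have h3 : b (n' + 1) m + 1 ≤ c (n' + 1) :=
      Finset.single_le_sum (f := fun m => b (n' + 1) m + 1) (fun _ _ => Nat.zero_le _)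
        (Finset.mem_range.2 (by omega))
    have h4 := hmono (show m ≤ n' by omega)
    have h5 := hsucc n'
    omega
  refine ⟨e, fun m n hmn u hu v hv h => ?_⟩
  rcases lt_or_gt_of_ne hmn with h' | h'
  · exact main m n h' u hu v hv h
  · exact main n m h' v hv u hu h.symm

theorem exists_M (hS : IsGen S) {w : Γ} {P : Set Γ} (hP : P.Finite) (hPc : Conn (cay S) P)
    (h1 : (1 : Γ) ∈ P) (hw : w ∈ P) (a : ℤ) (m : ℕ) :
    ∃ M : Set Γ, M.Finite ∧ Conn (cay S) M ∧ w ^ a ∈ M ∧ w ^ (a + m) ∈ M ∧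
      ∀ y ∈ M, ∃ n : ℤ, ∃ p ∈ P, y = w ^ n * p := by
  induction m with
  | zero =>
    refine ⟨{w ^ a}, Set.finite_singleton _, conn_singleton _ _, rfl, ?_, ?_⟩
    · simp
    · rintro y rfl
      exact ⟨a, 1, h1, (mul_one _).symm⟩
  | succ m ih =>
    obtain ⟨M, k1, k2, k3, k4, k5⟩ := ih
    refine ⟨M ∪ lt (w ^ (a + m)) P, k1.union (hP.image _),
      conn_union k2 (conn_lt hS _ hPc) ⟨w ^ (a + m), k4, 1, h1, mul_one _⟩, Or.inl k3,
      Or.inr ⟨w, hw, ?_⟩, ?_⟩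
    · change w ^ (a + (m : ℤ)) * w = w ^ (a + ((m + 1 : ℕ) : ℤ))
      rw [Nat.cast_add, Nat.cast_one, ← add_assoc, zpow_add_one]
    · rintro y (hy | ⟨p, hp, rfl⟩)
      · exact k5 y hy
      · exact ⟨a + m, p, hp, rfl⟩

theorem exists_x {z w : Γ} (hfi : ¬ (Subgroup.closure {z, w}).FiniteIndex) {P B : Set Γ}
    (hP : P.Finite) (hB : B.Finite) :
    ∃ x : Γ, ∀ h ∈ Subgroup.closure {z, w}, ∀ p ∈ P, ∀ b ∈ B, x ≠ h * p * b⁻¹ := by
  by_contra hcon
  push Not at hcon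
  apply hfi
  have : Finite (Γ ⧸ Subgroup.closure {z, w}) := by
    have hQ : (P * B⁻¹ : Set Γ).Finite := hP.mul hB.inv
    rw [← Set.finite_univ_iff]
    refine (hQ.image (fun q : Γ => ((q⁻¹ : Γ) : Γ ⧸ Subgroup.closure {z, w}))).subset ?_
    intro g _
    induction g using QuotientGroup.induction_on with
    | H g =>
      obtain ⟨h, hh, p, hp, b, hb, he⟩ := hcon g⁻¹
      refine ⟨p * b⁻¹, Set.mul_mem_mul hp (Set.inv_mem_inv.2 hb), ?_⟩
      change (((p * b⁻¹)⁻¹ : Γ) : Γ ⧸ Subgroup.closure {z, w}) = (g : Γ ⧸ Subgroup.closure {z, w})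
      rw [QuotientGroup.eq]
      have e : (p * b⁻¹)⁻¹⁻¹ * g = h⁻¹ := by
        rw [inv_inv]
        have e2 : g = (h * p * b⁻¹)⁻¹ := by rw [← he, inv_inv]
        rw [e2]
        group
      rw [e]
      exact Subgroup.inv_mem _ hh
  exact Subgroup.finiteIndex_of_finite_quotient

end group

theorem zed : ZedStmt.{u} := by
  intro Γ _ S hS _ hbig
  obtain ⟨z, w, hz, hind, hfi⟩ := hbig
  classical
  obtain ⟨P, P1, P2, P3, P4⟩ := exists_conn hS w
  obtain ⟨B, B1, B2, B3, B4⟩ := exists_conn hS z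
  obtain ⟨x, hx⟩ := exists_x hfi P1 B1
  obtain ⟨K, K1, K2, K3, K4⟩ := exists_conn hS x
  have hzc : ∀ (g : Γ) (m : ℤ), z ^ m * g = g * z ^ m := fun g m =>
    ((show Commute z g from (hz g).symm).zpow_left m).eq
  have hwH : ∀ n : ℤ, w ^ n ∈ Subgroup.closure {z, w} := fun n =>
    Subgroup.zpow_mem _ (Subgroup.subset_closure (by simp)) n
  have hzH : ∀ n : ℤ, z ^ n ∈ Subgroup.closure {z, w} := fun n =>
    Subgroup.zpow_mem _ (Subgroup.subset_closure (by simp)) n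
  obtain ⟨N0, hN0⟩ := bdd hind
    (Φ := (({x} : Set Γ) * B * K⁻¹) ∪ (({x} : Set Γ) * B * B⁻¹ * {x⁻¹}))
    (((Set.finite_singleton x).mul B1).mul K1.inv |>.union
      ((((Set.finite_singleton x).mul B1).mul B1.inv).mul (Set.finite_singleton _)))
  let N : ℕ := N0 + 1
  have hNbig : ∀ i k : ℕ, i ≠ k → N0 < ((N : ℤ) * i - (N : ℤ) * k).natAbs := by
    intro i k hik
    have h1 : ((N : ℤ) * i - (N : ℤ) * k) = (N : ℤ) * ((i : ℤ) - k) := by ring
    rw [h1, Int.natAbs_mul, Int.natAbs_natCast]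
    have h2 : 1 ≤ ((i : ℤ) - k).natAbs := by omega
    calc N0 < N * 1 := by omega
      _ ≤ N * ((i : ℤ) - k).natAbs := Nat.mul_le_mul_left _ h2
  let T : ℕ → Set Γ := fun k => ⋃ l : ℤ, lt (w ^ ((N : ℤ) * k) * x * z ^ l) B
  have hT : ∀ k y, y ∈ T k ↔ ∃ l : ℤ, ∃ b ∈ B, w ^ ((N : ℤ) * k) * x * z ^ l * b = y := by
    intro k y
    constructor
    · intro h
      obtain ⟨l, b, hb, h⟩ := Set.mem_iUnion.1 h
      exact ⟨l, b, hb, h⟩
    · rintro ⟨l, b, hb, h⟩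
      exact Set.mem_iUnion.2 ⟨l, b, hb, h⟩
  have hTc : ∀ k, Conn (cay S) (T k) := by
    intro k
    refine conn_zline (fun l => conn_lt hS _ B2) (fun l => ?_)
    refine ⟨w ^ ((N : ℤ) * k) * x * z ^ (l + 1), ⟨z, B4, ?_⟩, ⟨1, B3, mul_one _⟩⟩
    change w ^ ((N : ℤ) * k) * x * z ^ l * z = _
    rw [zpow_add_one]
    simp only [mul_assoc]
  have hTz : ∀ k (m : ℤ) y, y ∈ T k → z ^ m * y ∈ T k := by
    intro k m y hy
    obtain ⟨l, b, hb, rfl⟩ := (hT k y).1 hy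
    refine (hT k _).2 ⟨m + l, b, hb, ?_⟩
    have e := hzc (w ^ ((N : ℤ) * k) * x) m
    calc w ^ ((N : ℤ) * k) * x * z ^ (m + l) * b
        = (w ^ ((N : ℤ) * k) * x * z ^ m) * z ^ l * b := by
          rw [zpow_add]; simp only [mul_assoc]
      _ = (z ^ m * (w ^ ((N : ℤ) * k) * x)) * z ^ l * b := by rw [e]
      _ = _ := by simp only [mul_assoc]
  have hTz' : ∀ k (m : ℤ) y, z ^ m * y ∈ T k → y ∈ T k := by
    intro k m y hy
    have := hTz k (-m) _ hy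
    rwa [zpow_neg, inv_mul_cancel_left] at this
  have hTT : ∀ i k y, i ≠ k → y ∈ T i → y ∉ T k := by
    intro i k y hik hi hk
    obtain ⟨l, b, hb, h1⟩ := (hT i y).1 hi
    obtain ⟨l', b', hb', h2⟩ := (hT k y).1 hk
    have h3 : w ^ ((N : ℤ) * i - (N : ℤ) * k) * z ^ (l - l') = x * b' * b⁻¹ * x⁻¹ := by
      have h4 : w ^ ((N : ℤ) * i) * x * z ^ l * b = w ^ ((N : ℤ) * k) * x * z ^ l' * b' :=
        h1.trans h2.symm
      have e1 : w ^ ((N : ℤ) * i) * x * z ^ l * b = w ^ ((N : ℤ) * i) * z ^ l * x * b := by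
        rw [mul_assoc (w ^ ((N : ℤ) * i)) x, ← hzc x l]; simp only [mul_assoc]
      have e2 : w ^ ((N : ℤ) * k) * x * z ^ l' * b' = z ^ l' * (w ^ ((N : ℤ) * k) * (x * b')) := by
        rw [← hzc (w ^ ((N : ℤ) * k) * x) l']; simp only [mul_assoc]
      rw [e1, e2] at h4
      have h5 : w ^ ((N : ℤ) * i) * z ^ l = z ^ l' * (w ^ ((N : ℤ) * k) * (x * b')) * b⁻¹ * x⁻¹ := by
        rw [← h4]; group
      have e3 : w ^ ((N : ℤ) * i - (N : ℤ) * k) * z ^ (l - l') =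
          (w ^ ((N : ℤ) * k))⁻¹ * ((w ^ ((N : ℤ) * i) * z ^ l) * (z ^ l')⁻¹) := by
        rw [show (N : ℤ) * i - (N : ℤ) * k = -((N : ℤ) * k) + (N : ℤ) * i by ring,
          sub_eq_add_neg l l', zpow_add, zpow_add, zpow_neg, zpow_neg]
        simp only [mul_assoc]
      rw [e3, h5]
      have e4 : z ^ l' * (w ^ ((N : ℤ) * k) * (x * b')) * b⁻¹ * x⁻¹ * (z ^ l')⁻¹ =
          w ^ ((N : ℤ) * k) * (x * b') * b⁻¹ * x⁻¹ := by
        rw [mul_inv_eq_iff_eq_mul]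
        rw [← hzc (w ^ ((N : ℤ) * k) * (x * b') * b⁻¹ * x⁻¹) l']
        simp only [mul_assoc]
      rw [e4]
      group
    have h6 := (hN0 _ _ (show w ^ ((N : ℤ) * i - (N : ℤ) * k) * z ^ (l - l') ∈ _ from by
      rw [h3]
      exact Or.inr ⟨x * b' * b⁻¹, ⟨x * b', ⟨x, rfl, b', hb', rfl⟩, b⁻¹, Set.inv_mem_inv.2 hb, rfl⟩,
        x⁻¹, rfl, rfl⟩)).1
    exact absurd (hNbig i k hik) (by omega)
  have hKT : ∀ (i k : ℕ) (y : Γ), i ≠ k → y ∈ lt (w ^ ((N : ℤ) * i)) K → y ∉ T k := by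
    rintro i k y hik ⟨κ, hκ, rfl⟩ hk
    obtain ⟨l, b, hb, h⟩ := (hT k _).1 hk
    have h' : w ^ ((N : ℤ) * k) * x * z ^ l * b = w ^ ((N : ℤ) * i) * κ := h
    have h3 : w ^ ((N : ℤ) * i - (N : ℤ) * k) * z ^ (-l) = x * b * κ⁻¹ := by
      have e1 : w ^ ((N : ℤ) * i) = w ^ ((N : ℤ) * k) * x * z ^ l * b * κ⁻¹ := by
        rw [h', mul_inv_cancel_right]
      have e2 : w ^ ((N : ℤ) * i - (N : ℤ) * k) = (w ^ ((N : ℤ) * k))⁻¹ * w ^ ((N : ℤ) * i) := by
        rw [show (N : ℤ) * i - (N : ℤ) * k = -((N : ℤ) * k) + (N : ℤ) * i by ring, zpow_add,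
          zpow_neg]
      rw [e2, e1]
      have e3 : (w ^ ((N : ℤ) * k))⁻¹ * (w ^ ((N : ℤ) * k) * x * z ^ l * b * κ⁻¹) =
          x * z ^ l * b * κ⁻¹ := by group
      rw [e3]
      have e4 : x * z ^ l * b * κ⁻¹ = x * b * κ⁻¹ * z ^ l := by
        rw [mul_assoc x, hzc b l]
        have := hzc κ⁻¹ l
        simp only [mul_assoc]
        rw [this]
      rw [e4, zpow_neg, mul_inv_cancel_right]
    have h6 := (hN0 _ _ (show w ^ ((N : ℤ) * i - (N : ℤ) * k) * z ^ (-l) ∈ _ from by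
      rw [h3]
      exact Or.inl ⟨x * b, ⟨x, rfl, b, hb, rfl⟩, κ⁻¹, Set.inv_mem_inv.2 hκ, rfl⟩)).1
    exact absurd (hNbig i k hik) (by omega)
  have hMT : ∀ (n : ℤ) (k : ℕ), ∀ p ∈ P, w ^ n * p ∉ T k := by
    intro n k p hp hk
    obtain ⟨l, b, hb, h⟩ := (hT k _).1 hk
    refine hx (w ^ (n - (N : ℤ) * k) * z ^ (-l)) (Subgroup.mul_mem _ (hwH _) (hzH _)) p hp b hb ?_
    have e1 : w ^ (n - (N : ℤ) * k) = (w ^ ((N : ℤ) * k))⁻¹ * w ^ n := by
      rw [show n - (N : ℤ) * k = -((N : ℤ) * k) + n by ring, zpow_add, zpow_neg]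
    have e2 : w ^ n * p * b⁻¹ = w ^ ((N : ℤ) * k) * x * z ^ l := by
      rw [← h, mul_inv_cancel_right]
    rw [e1]
    have e3 : (w ^ ((N : ℤ) * k))⁻¹ * w ^ n * z ^ (-l) * p * b⁻¹ =
        (w ^ ((N : ℤ) * k))⁻¹ * (w ^ n * p * b⁻¹) * z ^ (-l) := by
      have := hzc (p * b⁻¹) (-l)
      simp only [mul_assoc] at this ⊢
      rw [this]
    rw [e3, e2, zpow_neg]
    group
  have hxT : ∀ i : ℕ, w ^ ((N : ℤ) * i) * x ∈ T i := fun i =>
    (hT i _).2 ⟨0, 1, B3, by rw [zpow_zero, mul_one, mul_one]⟩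
  have hA : ∀ i j : ℕ, ∃ A : Set Γ, i < j → (A.Finite ∧ Conn (cay S) A ∧
      w ^ ((N : ℤ) * i) * x ∈ A ∧ (∀ k, k ≠ i → ∀ y ∈ A, y ∉ T k) ∧
      ∃ u ∈ A, ∃ v ∈ T j, (cay S).Adj u v) := by
    intro i j
    by_cases hij : i < j
    · obtain ⟨M, M1, M2, M3, M4, M5⟩ := exists_M hS P1 P2 P3 P4 ((N : ℤ) * i) (N * (j - i))
      have e : (N : ℤ) * i + ((N * (j - i) : ℕ) : ℤ) = (N : ℤ) * j := by
        rw [Nat.cast_mul, Nat.cast_sub hij.le]; ring
      rw [e] at M4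
      have hL : Conn (cay S) ((lt (w ^ ((N : ℤ) * i)) K ∪ M) ∪ lt (w ^ ((N : ℤ) * j)) K) := by
        refine conn_union (conn_union (conn_lt hS _ K2) M2 ?_) (conn_lt hS _ K2) ?_
        · exact ⟨w ^ ((N : ℤ) * i), ⟨1, K3, mul_one _⟩, M3⟩
        · exact ⟨w ^ ((N : ℤ) * j), Or.inr M4, ⟨1, K3, mul_one _⟩⟩
      obtain ⟨A, A1, A2, A3, A4, u, hu, v, hv, hvT, huv⟩ := comp_exists (T := T j) hL
        (a := w ^ ((N : ℤ) * i) * x) (Or.inl (Or.inl ⟨x, K4, rfl⟩))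
        (hTT i j _ (by omega) (hxT i)) ⟨w ^ ((N : ℤ) * j) * x, Or.inr ⟨x, K4, rfl⟩, hxT j⟩
      refine ⟨A, fun _ => ⟨?_, A2, A3, ?_, u, hu, v, hvT, huv⟩⟩
      · exact (((K1.image _).union M1).union (K1.image _)).subset A1
      · intro k hk y hy
        by_cases hkj : k = j
        · rw [hkj]; exact A4 y hy
        · rcases A1 hy with (h | h) | h
          · exact hKT i k y (Ne.symm hk) h
          · obtain ⟨n, p, hp, rfl⟩ := M5 y h
            exact hMT n k p hp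
          · exact hKT j k y (Ne.symm hkj) h
    · exact ⟨∅, fun h => absurd h hij⟩
  choose A hA using hA
  let F : ℕ → Set Γ := fun n => if n.unpair.1 < n.unpair.2 then A n.unpair.1 n.unpair.2 else ∅
  have hFfin : ∀ n, (F n).Finite := by
    intro n
    by_cases h : n.unpair.1 < n.unpair.2
    · simp only [F, if_pos h]; exact (hA _ _ h).1
    · simp only [F, if_neg h]; exact Set.finite_empty
  obtain ⟨e, he⟩ := exists_shift hind hFfin
  have hFp : ∀ i j, i < j → F (Nat.pair i j) = A i j := by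
    intro i j hij
    simp only [F, Nat.unpair_pair, if_pos hij]
  let φ : ℕ → Set Γ := fun i => T i ∪ ⋃ j : {j : ℕ // i < j},
    lt (z ^ e (Nat.pair i j.1)) (A i j.1)
  have hφ : ∀ i y, y ∈ φ i → y ∈ T i ∨ ∃ j, i < j ∧ ∃ u ∈ A i j, z ^ e (Nat.pair i j) * u = y := by
    rintro i y (h | h)
    · exact Or.inl h
    · obtain ⟨⟨j, hj⟩, u, hu, h⟩ := Set.mem_iUnion.1 h
      exact Or.inr ⟨j, hj, u, hu, h⟩
  have hedge : ∀ i j, i < j → ∃ a ∈ φ i, ∃ b ∈ φ j, (cay S).Adj a b := by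
    intro i j hij
    obtain ⟨_, _, _, _, u, hu, v, hv, huv⟩ := hA i j hij
    refine ⟨z ^ e (Nat.pair i j) * u, Or.inr (Set.mem_iUnion.2 ⟨⟨j, hij⟩, u, hu, rfl⟩),
      z ^ e (Nat.pair i j) * v, Or.inl (hTz j _ v hv), ?_⟩
    rw [cay_adj hS] at huv ⊢
    have e1 : (z ^ e (Nat.pair i j) * u)⁻¹ * (z ^ e (Nat.pair i j) * v) = u⁻¹ * v := by group
    rw [e1]; exact huv
  refine ⟨φ, ?_, ?_, ?_⟩
  · intro i
    refine conn_star (hTc i) (fun j => conn_lt hS _ (hA i j.1 j.2).2.1) (fun j => ?_)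
    exact ⟨z ^ e (Nat.pair i j.1) * (w ^ ((N : ℤ) * i) * x), hTz i _ _ (hxT i),
      _, (hA i j.1 j.2).2.2.1, rfl⟩
  · intro i k y hi hk
    by_contra hik
    rcases hφ i y hi with h | ⟨j, hj, u, hu, h⟩
    · rcases hφ k y hk with h' | ⟨j', hj', u', hu', h'⟩
      · exact hTT i k y hik h h'
      · rw [← h'] at h
        exact (hA k j' hj').2.2.2.1 i hik u' hu' (hTz' i _ _ h)
    · rcases hφ k y hk with h' | ⟨j', hj', u', hu', h'⟩
      · rw [← h] at h'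
        exact (hA i j hj).2.2.2.1 k (Ne.symm hik) u hu (hTz' k _ _ h')
      · refine he (Nat.pair i j) (Nat.pair k j') ?_ u ?_ u' ?_ (h.trans h'.symm)
        · intro heq
          exact hik (Nat.pair_eq_pair.1 heq).1
        · rw [hFp i j hj]; exact hu
        · rw [hFp k j' hj']; exact hu'
  · intro i j hij
    have hne : i ≠ j := hij
    rcases lt_or_gt_of_ne hne with h | h
    · exact hedge i j h
    · obtain ⟨a, ha, b, hb, hab⟩ := hedge j i h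
      exact ⟨b, hb, a, ha, hab.symm⟩

end Pool.Agent.Helper12.NW
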